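import Pool.Agent.Helper18.NF.StC
import Pool.Agent.Helper46.BV.Pattern

/-! Module NF-27 of project NF: prescribed quadratic characters, `p = 1 mod 8`. -/

set_option autoImplicit false

open Finset

namespace Pool.Agent.Helper26.NF

open Pool.Agent.Helper18.NF Pool.Agent.Helper18.BV

/-- the residue class modulo an odd prime -/
theorem exists_classK (Ls T : Finset ℕ) (h3 : 3 ∈ Ls) (hT : ∀ q ∈ T, q ∉ Ls) (r : ℕ)
    (hr : r.Prime) (hr2 : r ≠ 2) :
    ∃ c : ℕ, c % r ≠ 0 ∧ (r ∈ Ls → c = 1) ∧ (r ∉ Ls → c % r ≠ 1) ∧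
      ∀ m : ℕ, m ≡ c [MOD r] → ∀ _ : Fact r.Prime,
        legendreSym r m = (if r ∈ T then -1 else 1) := by
  have hF : Fact r.Prime := ⟨hr⟩
  have key : ∀ (c m : ℕ), m ≡ c [MOD r] → legendreSym r m = legendreSym r c := by
    intro c m h
    rw [legendreSym.mod r m, legendreSym.mod r c]
    have : ((m : ℤ) % r) = (c : ℤ) % r := by exact_mod_cast h
    rw [this]
  by_cases hL : r ∈ Ls
  · have hrT : r ∉ T := fun h => hT r h hL
    refine ⟨1, ?_, fun _ => rfl, fun h => absurd hL h, fun m hm _ => ?_⟩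
    · rw [Nat.mod_eq_of_lt hr.one_lt]
      norm_num
    · rw [key 1 m hm, if_neg hrT]
      simp
  · have hodd : r % 2 = 1 := hr.eq_two_or_odd.resolve_left hr2
    have hr3 : r ≠ 3 := by
      rintro rfl
      exact hL h3
    have hr5 : 5 ≤ r := by
      have := hr.two_le
      rcases Nat.lt_or_ge r 5 with h | h
      · interval_cases r <;> omega
      · exact h
    by_cases hrT : r ∈ T
    · obtain ⟨a, ha⟩ := FiniteField.exists_nonsquare (F := ZMod r) (by
        rw [ZMod.ringChar_zmod_n]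
        exact hr2)
      have hcast : ((a.val : ℕ) : ZMod r) = a := ZMod.natCast_zmod_val a
      have h0 : a ≠ 0 := by
        rintro rfl
        exact ha ⟨0, by simp⟩
      have h1 : a ≠ 1 := by
        rintro rfl
        exact ha ⟨1, by simp⟩
      have hlt : a.val < r := ZMod.val_lt a
      refine ⟨a.val, ?_, fun h => absurd h hL, fun _ => ?_, fun m hm _ => ?_⟩
      · rw [Nat.mod_eq_of_lt hlt]
        intro h
        exact h0 ((ZMod.val_eq_zero a).1 h)
      · rw [Nat.mod_eq_of_lt hlt]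
        intro h
        apply h1
        rw [← hcast, h, Nat.cast_one]
      · rw [key _ m hm, if_pos hrT, legendreSym.eq_neg_one_iff', hcast]
        exact ha
    · refine ⟨4, ?_, fun h => absurd h hL, fun _ => ?_, fun m hm _ => ?_⟩
      · rw [Nat.mod_eq_of_lt (by omega)]
        norm_num
      · rw [Nat.mod_eq_of_lt (by omega)]
        norm_num
      · rw [key 4 m hm, if_neg hrT]
        have h4 : ((4 : ℕ) : ZMod r) ≠ 0 := by
          rw [Ne, ZMod.natCast_eq_zero_iff]
          intro h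
          have := Nat.le_of_dvd (by norm_num) h
          omega
        rw [legendreSym.eq_one_iff' r h4]
        exact ⟨2, by norm_num⟩

theorem patternK : PatternK := by
  intro Ls T w hLs h3 hT
  have hTL : ∀ q ∈ T, q ∉ Ls := fun q hq => (hT q hq).2.1
  have hT2 : 2 ∉ T := fun h => by
    have := (hT 2 h).2.2.1
    omega
  have hcl : ∀ r : ℕ, ∃ c : ℕ, (r.Prime ∧ r ≠ 2) → (c % r ≠ 0 ∧ (r ∈ Ls → c = 1) ∧
      (r ∉ Ls → c % r ≠ 1) ∧ ∀ m : ℕ, m ≡ c [MOD r] → ∀ _ : Fact r.Prime,
        legendreSym r m = (if r ∈ T then -1 else 1)) := by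
    intro r
    by_cases h : r.Prime ∧ r ≠ 2
    · obtain ⟨c, hc⟩ := exists_classK Ls T h3 hTL r h.1 h.2
      exact ⟨c, fun _ => hc⟩
    · exact ⟨0, fun h' => absurd h' h⟩
  choose c hc using hcl
  set P : Finset ℕ := ((Finset.range (w + 1)).filter fun r => r.Prime ∧ r ≠ 2) ∪ Ls with hP
  have hPp : ∀ r ∈ P, r.Prime ∧ r ≠ 2 := by
    intro r hr
    rcases Finset.mem_union.1 hr with h | h
    · exact (Finset.mem_filter.1 h).2
    · exact hLs r h
  obtain ⟨u0, hu0⟩ := Nat.chineseRemainderOfFinset c id P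
    (fun r hr => (hPp r hr).1.ne_zero) (by
      intro r hr r' hr' hne
      exact (Nat.coprime_primes (hPp r hr).1 (hPp r' hr').1).2 hne)
  have hcop : Nat.Coprime 8 (∏ r ∈ P, r) := by
    refine Nat.Coprime.prod_right fun r hr => ?_
    have h1 : Nat.Coprime 2 r := (Nat.coprime_primes Nat.prime_two (hPp r hr).1).2
      (hPp r hr).2.symm
    exact Nat.Coprime.pow_left 3 h1
  obtain ⟨u, hu8, huP⟩ := Nat.chineseRemainder hcop 1 u0
  have hur : ∀ r ∈ P, u ≡ c r [MOD r] := by
    intro r hr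
    have h1 : u ≡ u0 [MOD r] := huP.of_dvd (Finset.dvd_prod_of_mem _ hr)
    exact h1.trans (hu0 r hr)
  have hu8' : u % 8 = 1 := hu8
  have hPmem : ∀ r : ℕ, r.Prime → r ≠ 2 → r ∣ 8 * ∏ r ∈ P, r → r ∈ P := by
    intro r hr hr2 hrv
    have h1 : r ∣ ∏ r ∈ P, r := by
      rcases hr.dvd_mul.1 hrv with h | h
      · exfalso
        have h8 : r ∣ 2 ^ 3 := by norm_num; exact h
        exact hr2 ((Nat.prime_dvd_prime_iff_eq hr Nat.prime_two).1 (hr.dvd_of_dvd_pow h8))
      · exact h
    obtain ⟨r', hr', hd⟩ := (hr.prime.dvd_finsetProd_iff _).1 h1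
    have h2 : r = r' := (Nat.prime_dvd_prime_iff_eq hr (hPp r' hr').1).1 hd
    subst h2
    exact hr'
  refine ⟨8 * ∏ r ∈ P, r, u, ?_, ?_, ?_, ?_, ?_, ?_, ?_⟩
  · have : 0 < ∏ r ∈ P, r := Finset.prod_pos fun r hr => (hPp r hr).1.pos
    omega
  · refine Nat.Coprime.mul_right ?_ ?_
    · have h1 : Nat.Coprime u 2 := by
        rw [Nat.coprime_two_right, Nat.odd_iff]
        omega
      exact Nat.Coprime.pow_right 3 h1
    · refine Nat.Coprime.prod_right fun r hr => ?_
      rw [Nat.coprime_comm, (hPp r hr).1.coprime_iff_not_dvd]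
      intro hd
      have h1 := (hc r (hPp r hr)).1
      have h2 : u % r = c r % r := hur r hr
      rw [← h2] at h1
      exact h1 (Nat.mod_eq_zero_of_dvd hd)
  · exact Dvd.dvd.mul_right (by norm_num) _
  · intro r hr hrw
    by_cases hr2 : r = 2
    · subst hr2
      exact Dvd.dvd.mul_right (by norm_num) _
    · have hrP : r ∈ P := Finset.mem_union_left _
        (Finset.mem_filter.2 ⟨Finset.mem_range.2 (by omega), hr, hr2⟩)
      exact Dvd.dvd.mul_left (Finset.dvd_prod_of_mem _ hrP) _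
  · intro l hl
    have hlP : l ∈ P := Finset.mem_union_right _ hl
    refine ⟨Dvd.dvd.mul_left (Finset.dvd_prod_of_mem _ hlP) _, ?_⟩
    have h1 : u % l = c l % l := hur l hlP
    rw [h1, (hc l (hPp l hlP)).2.1 hl, Nat.mod_eq_of_lt (hPp l hlP).1.one_lt]
  · intro r hr hr2 hrv hrL
    have hr' := hPmem r hr hr2 hrv
    have h3 : u % r = c r % r := hur r hr'
    rw [h3]
    exact (hc r (hPp r hr')).2.2.1 hrL
  · intro p hp hpu hwp n hn hnw
    have hF : Fact p.Prime := ⟨hp⟩
    have hp8 : p % 8 = 1 := by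
      have h1 : p ≡ u [MOD 8] := hpu.of_dvd (Dvd.intro _ rfl)
      have h2 : p % 8 = u % 8 := h1
      omega
    have hp2 : p ≠ 2 := by
      rintro rfl
      omega
    have hleg : ∀ r : ℕ, r.Prime → r ≤ w → legendreSym p r = if r ∈ T then -1 else 1 := by
      intro r hr hrw
      by_cases hr2 : r = 2
      · subst hr2
        rw [if_neg hT2]
        have h1 : ((2 : ℕ) : ZMod p) ≠ 0 := by
          rw [Ne, ZMod.natCast_eq_zero_iff]
          intro h
          have := Nat.le_of_dvd (by norm_num) h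
          have := hp.two_le
          omega
        rw [legendreSym.eq_one_iff' p h1]
        have h2 := (ZMod.exists_sq_eq_two_iff hp2).2 (Or.inl hp8)
        exact_mod_cast h2
      · have hrP : r ∈ P := Finset.mem_union_left _
          (Finset.mem_filter.2 ⟨Finset.mem_range.2 (by omega), hr, hr2⟩)
        have hFr : Fact r.Prime := ⟨hr⟩
        have h1 : p ≡ c r [MOD r] := by
          have h2 : p ≡ u [MOD r] := hpu.of_dvd (Dvd.dvd.mul_left (Finset.dvd_prod_of_mem _ hrP) _)
          exact h2.trans (hur r hrP)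
        have h3 := (hc r ⟨hr, hr2⟩).2.2.2 p h1 hFr
        have h4 := legendreSym.quadratic_reciprocity' (p := r) (q := p) hr2 hp2
        rw [h4, h3]
        have h5 : Even (p / 2) := by
          rw [Nat.even_iff]
          omega
        rw [(h5.mul_left (r / 2)).neg_one_pow, one_mul]
    have hn0 : ((n : ℕ) : ZMod p) ≠ 0 := by
      rw [Ne, ZMod.natCast_eq_zero_iff]
      intro h
      have := Nat.le_of_dvd (by omega) h
      omega
    rw [← legendreSym.eq_one_iff' p hn0, Pool.Agent.Helper46.BV.legendre_eq T p w hleg n hn hnw]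
    unfold Pool.Agent.Helper18.BV.odd
    rw [Nat.not_odd_iff_even]
    exact neg_one_pow_eq_one_iff_even (by norm_num)

end Pool.Agent.Helper26.NF
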