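import Pool.Agent.Helper18.NF.StN

/-! Module NF-11 of project NF: a residue class on which a character is not `1`. -/

set_option autoImplicit false

namespace Pool.Agent.Helper26.NF

open Pool.Agent.Helper18.NF Pool.Agent.Helper18.BV

/-- An auxiliary multiplier. -/
theorem exists_mult {k D v : ℕ} (hk : k ≠ 0) (hD : Odd D) (hv : v.Coprime (k * D))
    (h3 : 3 ∣ D → v % 3 = 1) :
    ∃ a : ℕ, 1 ≤ a ∧ a.Coprime (k * D) ∧ (a - 1).Coprime D ∧ (a * v - 1).Coprime D := by
  have hD0 : D ≠ 0 := by
    rintro rfl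
    exact absurd hD (by decide)
  have hkD : k * D ≠ 0 := mul_ne_zero hk hD0
  let c : ℕ → ℕ := fun l => if l ∣ D then (if 2 * v % l = 1 then 3 else 2) else 1
  obtain ⟨a, ha⟩ := Nat.chineseRemainderOfFinset c id (k * D).primeFactors
    (fun i hi => (Nat.prime_of_mem_primeFactors hi).ne_zero)
    (by
      intro p hp q hq hpq
      exact (Nat.coprime_primes (Nat.prime_of_mem_primeFactors hp)
        (Nat.prime_of_mem_primeFactors hq)).2 hpq)
  -- facts on the primes
  have hc0 : ∀ l : ℕ, l.Prime → l ∣ k * D → ¬ l ∣ c l := by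
    intro l hl hlk
    simp only [c]
    split_ifs with h1 h2
    · -- c = 3
      intro h4
      have hl3 : l = 3 := (Nat.prime_dvd_prime_iff_eq hl Nat.prime_three).1 h4
      subst hl3
      have := h3 h1
      omega
    · intro h4
      have hl2 : l = 2 := (Nat.prime_dvd_prime_iff_eq hl Nat.prime_two).1 h4
      subst hl2
      exact absurd h1 (by
        rw [← even_iff_two_dvd]
        exact Nat.not_even_iff_odd.2 hD)
    · intro h4
      exact hl.one_lt.ne' (Nat.dvd_one.1 h4)
  have hac : ∀ l : ℕ, l.Prime → l ∣ k * D → a % l = c l % l := by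
    intro l hl hlk
    exact ha l (Nat.mem_primeFactors.2 ⟨hl, hlk, hkD⟩)
  have hal : ∀ l : ℕ, l.Prime → l ∣ k * D → ¬ l ∣ a := by
    intro l hl hlk h
    apply hc0 l hl hlk
    rw [Nat.dvd_iff_mod_eq_zero] at h ⊢
    rw [← hac l hl hlk, h]
  have hcop : a.Coprime (k * D) := Nat.Coprime.symm <| Nat.coprime_of_dvd (by
    intro l hl h1 h2
    exact hal l hl h1 h2)
  by_cases hD1 : D = 1
  · subst hD1
    refine ⟨a + k, ?_, ?_, by simp, by simp⟩
    · have : 1 ≤ k := Nat.one_le_iff_ne_zero.2 hk
      omega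
    · rw [mul_one] at hcop ⊢
      simpa using hcop
  have ha1 : 1 ≤ a := by
    rcases Nat.eq_zero_or_pos a with h | h
    · exfalso
      subst h
      obtain ⟨l, hl, hlD⟩ := Nat.exists_prime_and_dvd hD1
      exact hal l hl (Dvd.dvd.mul_left hlD k) (dvd_zero l)
    · exact h
  have hv1 : 1 ≤ v := by
    rcases Nat.eq_zero_or_pos v with h | h
    · exfalso
      subst h
      obtain ⟨l, hl, hlD⟩ := Nat.exists_prime_and_dvd hD1
      have h2 : l ∣ Nat.gcd 0 (k * D) := by
        rw [Nat.gcd_zero_left]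
        exact Dvd.dvd.mul_left hlD k
      rw [hv] at h2
      exact hl.one_lt.ne' (Nat.dvd_one.1 h2)
    · exact h
  -- primes dividing D
  have hlD : ∀ l : ℕ, l.Prime → l ∣ D → 3 ≤ l ∧ c l % l ≠ 1 ∧ c l * v % l ≠ 1 := by
    intro l hl h
    have hl2 : l ≠ 2 := by
      rintro rfl
      exact absurd h (by
        rw [← even_iff_two_dvd]
        exact Nat.not_even_iff_odd.2 hD)
    have hl3 : 3 ≤ l := by
      have := hl.two_le
      omega
    have hlv : ¬ l ∣ v := by
      intro h1
      have h2 : l ∣ Nat.gcd v (k * D) := Nat.dvd_gcd h1 (Dvd.dvd.mul_left h k)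
      rw [hv] at h2
      exact hl.one_lt.ne' (Nat.dvd_one.1 h2)
    refine ⟨hl3, ?_⟩
    simp only [c, h, if_true]
    split_ifs with h2
    · -- l ≥ 5
      have hl3' : l ≠ 3 := by
        rintro rfl
        have := h3 h
        omega
      have hl4 : 5 ≤ l := by
        have h4 : l ≠ 4 := by
          rintro rfl
          exact absurd hl (by decide)
        omega
      constructor
      · rw [Nat.mod_eq_of_lt (by omega)]
        omega
      · intro h5
        apply hlv
        have h6 : (3 * v) ≡ (2 * v) [MOD l] := by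
          unfold Nat.ModEq
          rw [h5, h2]
        have h7 : (2 * v) ≡ (3 * v) [MOD l] := h6.symm
        rw [Nat.modEq_iff_dvd' (by omega)] at h7
        have h8 : 3 * v - 2 * v = v := by omega
        rwa [h8] at h7
    · constructor
      · rw [Nat.mod_eq_of_lt (by omega)]
        omega
      · exact h2
  refine ⟨a, ha1, hcop, ?_, ?_⟩
  · apply Nat.Coprime.symm
    apply Nat.coprime_of_dvd
    intro l hl h1 h2
    obtain ⟨hl3, hc1, _⟩ := hlD l hl h1
    apply hc1
    rw [← hac l hl (Dvd.dvd.mul_left h1 k)]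
    obtain ⟨m, hm⟩ := h2
    have h4 : a = 1 + l * m := by omega
    rw [h4, Nat.add_mul_mod_self_left, Nat.mod_eq_of_lt (by omega)]
  · apply Nat.Coprime.symm
    apply Nat.coprime_of_dvd
    intro l hl h1 h2
    obtain ⟨hl3, _, hc2⟩ := hlD l hl h1
    apply hc2
    rw [Nat.mul_mod, ← hac l hl (Dvd.dvd.mul_left h1 k), ← Nat.mul_mod]
    obtain ⟨m, hm⟩ := h2
    have h5 : 1 ≤ a * v := Nat.mul_pos ha1 hv1
    have h4 : a * v = 1 + l * m := by omega
    rw [h4, Nat.add_mul_mod_self_left, Nat.mod_eq_of_lt (by omega)]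

theorem witRes : WitRes := by
  intro k D _ hD χ hχ
  by_contra hcon
  push Not at hcon
  have hk : k ≠ 0 := NeZero.ne k
  have hD0 : D ≠ 0 := by
    rintro rfl
    exact absurd hD (by decide)
  have hkD : k * D ≠ 0 := mul_ne_zero hk hD0
  apply hχ
  -- first step
  have step1 : ∀ v : ℕ, 1 ≤ v → v.Coprime (k * D) → (3 ∣ D → v % 3 = 1) →
      χ (v : ZMod k) = 1 := by
    intro v hv1 hv h3
    obtain ⟨a, ha1, ha2, ha3, ha4⟩ := exists_mult hk hD hv h3
    have h1 := hcon a ha1 ha2 ha3
    have h2 := hcon (a * v) (Nat.mul_pos ha1 hv1) (Nat.Coprime.mul_left ha2 hv) ha4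
    rw [Nat.cast_mul, map_mul, h1, one_mul] at h2
    exact h2
  have step2 : ∀ v : ℕ, 1 ≤ v → v.Coprime (k * D) → χ (v : ZMod k) = 1 := by
    intro v hv1 hv
    by_cases h3 : 3 ∣ D → v % 3 = 1
    · exact step1 v hv1 hv h3
    · push Not at h3
      obtain ⟨h3D, hv3⟩ := h3
      have hkD3 : 3 ∣ k * D := Dvd.dvd.mul_left h3D k
      have hkDge : 3 ≤ k * D := Nat.le_of_dvd (Nat.pos_of_ne_zero hkD) hkD3
      have hv0 : v % 3 ≠ 0 := by
        intro h0
        have h2 : 3 ∣ Nat.gcd v (k * D) := Nat.dvd_gcd (Nat.dvd_of_mod_eq_zero h0) hkD3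
        rw [hv] at h2
        omega
      have hv2 : v % 3 = 2 := by omega
      have hcop1 : (k * D - 1).Coprime (k * D) := by
        rw [Nat.coprime_comm]
        exact (Nat.coprime_self_sub_right (by omega)).2 (Nat.coprime_one_right _)
      have hcop2 : (k * D - 1 - 1).Coprime D := by
        apply Nat.Coprime.symm
        apply Nat.coprime_of_dvd
        intro l hl h1 h2
        have h4 : l ∣ k * D := Dvd.dvd.mul_left h1 k
        have h5 : l ∣ k * D - (k * D - 1 - 1) := Nat.dvd_sub h4 h2
        have h6 : k * D - (k * D - 1 - 1) = 2 := by omega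
        rw [h6] at h5
        have hl2 : l = 2 := (Nat.prime_dvd_prime_iff_eq hl Nat.prime_two).1 h5
        subst hl2
        exact absurd h1 (by
          rw [← even_iff_two_dvd]
          exact Nat.not_even_iff_odd.2 hD)
      have h1 := hcon (k * D - 1) (by omega) hcop1 hcop2
      have h2 := step1 (v * (k * D - 1)) (Nat.mul_pos hv1 (by omega))
        (Nat.Coprime.mul_left hv hcop1) (by
          intro _
          rw [Nat.mul_mod, hv2]
          obtain ⟨m, hm⟩ := hkD3
          rw [hm]
          have : (3 * m - 1) % 3 = 2 := by omega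
          rw [this])
      rw [Nat.cast_mul, map_mul, h1, mul_one] at h2
      exact h2
  -- conclusion
  refine MulChar.ext fun x => ?_
  have : NeZero (k * D) := ⟨hkD⟩
  obtain ⟨y, hy⟩ := ZMod.unitsMap_surjective (Dvd.intro D rfl : k ∣ k * D) x
  have h1 := step2 ((y : ZMod (k * D)).val + k * D) (by omega) (by
    rw [Nat.coprime_add_self_left]
    exact ZMod.val_coe_unit_coprime y)
  have h2 : (((y : ZMod (k * D)).val + k * D : ℕ) : ZMod k) = (x : ZMod k) := by
    rw [← hy, ZMod.unitsMap_val, Nat.cast_add, Nat.cast_mul, ZMod.natCast_self, zero_mul,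
      add_zero, ZMod.natCast_val]
  rw [h2] at h1
  rw [h1]
  simp

end Pool.Agent.Helper26.NF
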